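import Pool.Agent.H71.TP.Basic

/-!
# Automorphic loops of odd order

In a finite automorphic loop of odd order `J x = x` only for `x = e`.

Let `P` be a maximal 2-subgroup of the inner mapping group for which `F = {r : J r = r, P r = r}` is
not `{e}`. For `r ∈ F` the element `D_r J` is an inner mapping of square one which commutes with `P`
and fixes `r`, so it is in `P`. Hence `F` is closed under products, `J = 1` on `F`, and `|F|` is odd as
`⟨P, J⟩` is a 2-group. For `z ∈ F`, `z ≠ e`, the map `r ↦ r \ z` is an involution of `F` without fixed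
points.
-/

set_option autoImplicit false

namespace ALoop

open Equiv

variable {Q : Type*} {G : Subgroup (Perm Q)} {L : Q → Perm Q} {J : Perm Q} {e : Q}

theorem isPGroup_sup_zpowers {P : Subgroup (Perm Q)} (hP2 : IsPGroup 2 P) {T : Perm Q}
    (hTT : T * T = 1) (hc : ∀ p ∈ P, p * T = T * p) :
    IsPGroup 2 (P ⊔ Subgroup.zpowers T : Subgroup (Perm Q)) := by
  refine IsPGroup.to_sup_of_normal_right' hP2 ?_ ?_
  · rintro ⟨g, n, rfl⟩
    refine ⟨1, Subtype.ext ?_⟩
    change ((fun k : ℤ => T ^ k) n) ^ (2 ^ 1) = 1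
    have h1 : T ^ 2 = 1 := by rw [pow_two, hTT]
    change (T ^ n) ^ (2 ^ 1) = 1
    rw [pow_one, ← zpow_natCast, ← zpow_mul, mul_comm, zpow_mul, zpow_natCast, h1, one_zpow]
  · intro p hp
    rw [Subgroup.mem_normalizer_iff]
    have hcc : Commute p T := hc p hp
    intro g
    constructor
    · rintro ⟨n, rfl⟩
      refine ⟨n, ?_⟩
      change T ^ n = p * T ^ n * p⁻¹
      rw [(hcc.zpow_right n).eq]; group
    · rintro ⟨n, hn⟩
      refine ⟨n, ?_⟩
      change T ^ n = p * g * p⁻¹ at hn
      change T ^ n = g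
      have h1 : g = p⁻¹ * T ^ n * p := by rw [hn]; group
      rw [h1, mul_assoc, ← (hcc.zpow_right n).eq]; group

/-- a finite set with an involution without fixed points has even order -/
theorem even_of_inv {α : Type*} [Finite α] (f : α → α) (hff : ∀ a, f (f a) = a)
    (hne : ∀ a, f a ≠ a) : Nat.card α ≡ 0 [MOD 2] := by
  have i1 : Fintype α := Fintype.ofFinite α
  have i2 : DecidableEq α := Classical.decEq α
  obtain ⟨g, hg⟩ : ∃ g : Function.End α, ∀ a, g a = f a := ⟨f, fun _ => rfl⟩
  have hgg : g ^ (2 ^ 1) = 1 := by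
    funext r
    have h1 : (g ^ (2 ^ 1)) r = g (g r) := by
      rw [pow_one, pow_two]; rfl
    rw [h1, hg, hg, hff]
    rfl
  have h1 := Equiv.Perm.card_fixedPoints_modEq (p := 2) (n := 1) hgg
  have h2 : IsEmpty (Function.fixedPoints g) := by
    refine ⟨fun r => ?_⟩
    have h3 : g (r : α) = r := r.2
    rw [hg] at h3
    exact hne _ h3
  have h3 : ∀ (β : Type _) [Finite β] (i : Fintype β), IsEmpty β → @Fintype.card β i = 0 :=
    fun β _ i hβ => @Fintype.card_eq_zero β i hβ
  rw [Nat.card_eq_fintype_card]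
  exact h1.trans (congrArg (fun k => k % 2) (h3 _ _ h2))

/-- the common fixed points of `J` and `P` -/
def FP (J : Perm Q) (P : Subgroup (Perm Q)) : Set Q := {r | J r = r ∧ ∀ p ∈ P, p r = r}

namespace AL0

theorem fix_of_odd [Finite Q] (h : AL0 G L J e) (hodd : Odd (Nat.card Q)) {x : Q}
    (hx : J x = x) : x = e := by
  classical
  by_contra hxe
  have hJJ := h.JJ1
  obtain ⟨S, hS⟩ : ∃ S : Set (Subgroup (Perm Q)), S = {P | P ≤ G ∧ (∀ p ∈ P, p e = e) ∧
      IsPGroup 2 P ∧ ∃ r ∈ FP J P, r ≠ e} := ⟨_, rfl⟩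
  have hne : S.Nonempty := by
    refine ⟨⊥, ?_⟩
    rw [hS]
    refine ⟨bot_le, ?_, IsPGroup.of_bot, x, ⟨hx, ?_⟩, hxe⟩
    · intro p hp
      rw [Subgroup.mem_bot.1 hp, Perm.one_apply]
    · intro p hp
      rw [Subgroup.mem_bot.1 hp, Perm.one_apply]
  obtain ⟨P, hPS, hmax⟩ := (Set.toFinite S).exists_maximal hne
  have hPS' := hPS
  rw [hS] at hPS'
  obtain ⟨hPG, hPe, hP2, z, hz, hze⟩ := hPS'
  have heF : e ∈ FP J P := ⟨h.Je, hPe⟩
  have comp : ∀ r ∈ FP J P, ∀ p ∈ P, p * L r = L r * p := fun r hr p hp =>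
    h.comL (hPG hp) (hPe p hp) (hr.2 p hp)
  have comJ : ∀ p ∈ P, p * J = J * p := fun p hp => h.comJ p (hPG hp) (hPe p hp)
  have hrr : ∀ r ∈ FP J P, L r r = e := by
    intro r hr
    have h1 := h.LJ r
    rwa [hr.1] at h1
  have hLe : ∀ r ∈ FP J P, (L r)⁻¹ e = r := by
    intro r hr
    rw [Perm.inv_eq_iff_eq, hrr r hr]
  -- `D_r J ∈ P`
  have hT : ∀ r ∈ FP J P, D L J r * J ∈ P := by
    intro r hr
    have hTG : D L J r * J ∈ G := by
      have h1 : D L J r * J = L r * (J * (L r)⁻¹ * J) := by unfold D; group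
      rw [h1]
      exact G.mul_mem (h.memL r) (h.JG _ (G.inv_mem (h.memL r)))
    have hTe : (D L J r * J) e = e := by
      unfold D
      simp only [Perm.mul_apply]
      rw [h.Je, hLe r hr, hr.1, hrr r hr]
    have hTr : (D L J r * J) r = r := by
      unfold D
      have h1 : (L r)⁻¹ r = e := by rw [Perm.inv_eq_iff_eq, h.Le]
      simp only [Perm.mul_apply]
      rw [hr.1, h1, h.Je, h.Le]
    have hTJ := h.comJ _ hTG hTe
    have hDD : D L J r * D L J r = 1 := by
      unfold D
      calc L r * J * (L r)⁻¹ * (L r * J * (L r)⁻¹) = L r * (J * J) * (L r)⁻¹ := by group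
        _ = 1 := by rw [hJJ]; group
    have hTT : (D L J r * J) * (D L J r * J) = 1 := by
      calc (D L J r * J) * (D L J r * J) = D L J r * (J * (D L J r * J)) := by group
        _ = D L J r * (D L J r * J * J) := by rw [← hTJ]
        _ = (D L J r * D L J r) * (J * J) := by group
        _ = 1 := by rw [hDD, hJJ, one_mul]
    have hTP : ∀ p ∈ P, p * (D L J r * J) = (D L J r * J) * p := by
      intro p hp
      have c1 : Commute p (L r) := comp r hr p hp
      have c2 : Commute p J := comJ p hp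
      have c3 : Commute p (D L J r * J) := by
        unfold D
        exact ((c1.mul_right c2).mul_right c1.inv_right).mul_right c2
      exact c3
    have hmem : P ⊔ Subgroup.zpowers (D L J r * J) ∈ S := by
      rw [hS]
      have hle : ∀ q : Q, (∀ p ∈ P, p q = q) → (D L J r * J) q = q →
          ∀ p ∈ P ⊔ Subgroup.zpowers (D L J r * J), p q = q := by
        intro q h1 h2
        have h3 : P ⊔ Subgroup.zpowers (D L J r * J) ≤ MulAction.stabilizer (Perm Q) q := by
          refine sup_le (fun p hp => h1 p hp) ?_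
          rw [Subgroup.zpowers_le]
          exact h2
        exact fun p hp => h3 hp
      refine ⟨sup_le hPG (by rw [Subgroup.zpowers_le]; exact hTG), hle e hPe hTe,
        isPGroup_sup_zpowers hP2 hTT hTP, ?_⟩
      by_cases hre : r = e
      · -- then `D_r J = 1`
        refine ⟨z, ⟨hz.1, hle z hz.2 ?_⟩, hze⟩
        rw [hre, h.D_e, hJJ, Perm.one_apply]
      · exact ⟨r, ⟨hr.1, hle r hr.2 hTr⟩, hre⟩
    exact (hmax hmem le_sup_left) (Subgroup.mem_sup_right (Subgroup.mem_zpowers _))
  -- `F` is closed under products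
  have hmul : ∀ r ∈ FP J P, ∀ s ∈ FP J P, L r s ∈ FP J P := by
    intro r hr s hs
    refine ⟨?_, ?_⟩
    · have h1 : D L J r s = s := by
        have h2 := hs.2 _ (hT r hr)
        rwa [Perm.mul_apply, hs.1] at h2
      have h3 : (L r)⁻¹ * J * L r = D L J r := by
        have h4 := h.D_conj (h.le_H (G.inv_mem (h.memL r))) e
        rw [inv_inv, h.D_e, hLe r hr] at h4
        exact h4
      have h5 : J * L r = L r * D L J r := by rw [← h3]; group
      have h6 := congrArg (fun f : Perm Q => f s) h5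
      simp only [Perm.mul_apply] at h6
      rw [h6, h1]
    · intro p hp
      have h1 := congrArg (fun f : Perm Q => f s) (comp r hr p hp)
      simp only [Perm.mul_apply] at h1
      rw [h1, hs.2 p hp]
  have hcomm : ∀ r ∈ FP J P, ∀ s ∈ FP J P, L r s = L s r := by
    intro r hr s hs
    have h1 := h.aaip r s
    rw [(hmul r hr s hs).1, hr.1, hs.1] at h1
    exact h1
  have hdiv : ∀ r ∈ FP J P, (L r)⁻¹ z ∈ FP J P := by
    intro r hr
    have hinj : Function.Injective (fun s : FP J P => (⟨L r s, hmul r hr s s.2⟩ : FP J P)) := by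
      intro s t hst
      have h1 := congrArg Subtype.val hst
      exact Subtype.ext ((L r).injective h1)
    obtain ⟨s, hs⟩ := (Finite.injective_iff_surjective.1 hinj) ⟨z, hz⟩
    have h1 : L r s = z := congrArg Subtype.val hs
    have h2 : (L r)⁻¹ z = s := by rw [Perm.inv_eq_iff_eq, h1]
    rw [h2]
    exact s.2

  -- `|F|` is even
  have heven : Nat.card (FP J P) ≡ 0 [MOD 2] := by
    refine even_of_inv (fun r : FP J P => (⟨(L r)⁻¹ z, hdiv r r.2⟩ : FP J P)) ?_ ?_
    · intro r
      apply Subtype.ext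
      obtain ⟨s, hs⟩ : ∃ s : Q, s = (L r)⁻¹ z := ⟨_, rfl⟩
      have hsF : s ∈ FP J P := by rw [hs]; exact hdiv r r.2
      have h4 : L r s = z := by
        rw [hs]; exact (L r).apply_symm_apply z
      have h5 := hcomm r r.2 s hsF
      change (L ((L r)⁻¹ z))⁻¹ z = r
      rw [← hs, Perm.inv_eq_iff_eq, ← h4, h5]
    · intro r h3
      have h5 : (L r)⁻¹ z = r := congrArg Subtype.val h3
      rw [Perm.inv_eq_iff_eq, hrr _ r.2] at h5
      exact hze h5
  -- `|F|` is odd
  have hodd' : Nat.card Q ≡ Nat.card (FP J P) [MOD 2] := by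
    have hG := isPGroup_sup_zpowers hP2 hJJ comJ
    have h1 := hG.card_modEq_card_fixedPoints Q
    have h2 : (MulAction.fixedPoints (P ⊔ Subgroup.zpowers J : Subgroup (Perm Q)) Q) = FP J P := by
      ext r
      constructor
      · intro hr
        refine ⟨hr ⟨J, Subgroup.mem_sup_right (Subgroup.mem_zpowers _)⟩, fun p hp =>
          hr ⟨p, Subgroup.mem_sup_left hp⟩⟩
      · rintro ⟨hr1, hr2⟩ ⟨g, hg⟩
        have h3 : P ⊔ Subgroup.zpowers J ≤ MulAction.stabilizer (Perm Q) r := by
          refine sup_le (fun p hp => hr2 p hp) ?_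
          rw [Subgroup.zpowers_le]
          exact hr1
        exact h3 hg
    rw [h2] at h1
    exact h1
  have h1 := hodd'.trans heven
  rw [Nat.modEq_zero_iff_dvd] at h1
  exact (Nat.not_even_iff_odd.2 hodd) (even_iff_two_dvd.2 h1)

end AL0

end ALoop
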