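import Pool.Agent.H4.Loop.Prim

/-!
# Middle nucleus of a simple automorphic loop

`Nuc_m = {s : L (L v s) = L v * L s for all v}` is closed under products and inverses and under the
inner mappings, so `a ~ b :<-> a \ b ∈ Nuc_m` is a `G`-congruence: if `Q` is simple and one `s ≠ e`
is in the middle nucleus then `Q` is a group. If all commutators `x \ (T_u x)`, `T_u x = u \ (x u)`,
are in the middle nucleus, `Q` is a group or commutative.
-/

set_option autoImplicit false

namespace ALoop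

open Equiv

variable {Q : Type*} {G : Subgroup (Perm Q)} {L : Q → Perm Q} {J : Perm Q} {e : Q}

/-- `s` is in the middle nucleus -/
def MN (L : Q → Perm Q) (s : Q) : Prop := ∀ v, L (L v s) = L v * L s

namespace AL

theorem mn_mul (_h : AL G L J e) {s t : Q} (hs : MN L s) (ht : MN L t) : MN L (L s t) := by
  intro v
  have h1 : L v (L s t) = L (L v s) t := by rw [hs v]; rfl
  rw [h1, ht, hs, ht s, mul_assoc]

theorem mn_equi (h : AL G L J e) {s : Q} (hs : MN L s) {g : Perm Q} (hg : g ∈ G) (hge : g e = e) :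
    MN L (g s) := by
  intro v
  have hm : ∀ x y, g (L x y) = L (g x) (g y) := by
    intro x y
    have h1 := h.equi g hg hge x
    rw [← h1, Perm.mul_apply, Perm.mul_apply, Perm.inv_def, g.symm_apply_apply]
  obtain ⟨w, rfl⟩ := g.surjective v
  rw [← hm, ← h.equi g hg hge, hs w, ← h.equi g hg hge w, ← h.equi g hg hge s]
  group

theorem mn_inv (h : AL G L J e) {s : Q} (hs : MN L s) : L (J s) = (L s)⁻¹ ∧ MN L (J s) := by
  have h1 : L (J s) = (L s)⁻¹ := by
    have := hs (J s)
    rw [h.LJ', h.Le1] at this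
    exact eq_inv_of_mul_eq_one_left this.symm
  refine ⟨h1, fun v => ?_⟩
  -- `v = w s`
  have hr : ∃ w, L w s = v := by
    refine ⟨(J * L (J s) * J)⁻¹ v, ?_⟩
    rw [← h.R_apply, ← Perm.mul_apply, mul_inv_cancel, Perm.one_apply]
  obtain ⟨w, rfl⟩ := hr
  have h2 : L (L w s) (J s) = w := by
    rw [hs w, Perm.mul_apply, h.LJ, h.Le]
  rw [h2, h1, hs w]
  group

theorem mn_all (h : AL G L J e) {s : Q} (hs : MN L s) (hse : s ≠ e) : ∀ x, MN L x := by
  have hE : MN L e := by
    intro v
    rw [h.Le, h.Le1, mul_one]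
  have hinv : ∀ p : Perm Q, ∀ x, p (p⁻¹ x) = x := fun p x => p.apply_symm_apply x
  have hb : ∀ a b : Q, L a ((L a)⁻¹ b) = b := fun a b => hinv _ _
  have heq : Equivalence (fun a b : Q => MN L ((L a)⁻¹ b)) := by
    refine ⟨?_, ?_, ?_⟩
    · intro a
      have h2 : (L a)⁻¹ a = e := by rw [Perm.inv_eq_iff_eq, h.Le]
      rw [h2]
      exact hE
    · intro a b hab
      set t := (L a)⁻¹ b with ht
      have hbt : b = L a t := by rw [ht, hb]
      have h2 := h.mn_inv hab
      have h3 : (L b)⁻¹ a = J t := by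
        rw [Perm.inv_eq_iff_eq, hbt, hab a, Perm.mul_apply, h.LJ, h.Le]
      rw [h3]
      exact h2.2
    · intro a b c hab hbc
      set t := (L a)⁻¹ b with ht
      set r := (L b)⁻¹ c with hr
      have hbt : b = L a t := by rw [ht, hb]
      have hcr : c = L b r := by rw [hr, hb]
      have h3 : (L a)⁻¹ c = L t r := by
        rw [Perm.inv_eq_iff_eq, hcr, hbt, hab a, Perm.mul_apply]
      rw [h3]
      exact h.mn_mul hab hbc
  have hG : ∀ g ∈ G, ∀ a b, MN L ((L a)⁻¹ b) → MN L ((L (g a))⁻¹ (g b)) := by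
    intro g hg a b hab
    set t := (L a)⁻¹ b with ht
    have hbt : b = L a t := by rw [ht, hb]
    have h4 : (L (g a))⁻¹ * g * L a ∈ G :=
      G.mul_mem (G.mul_mem (G.inv_mem (h.memL _)) hg) (h.memL _)
    have h5 : ((L (g a))⁻¹ * g * L a) e = e := by
      rw [Perm.mul_apply, Perm.mul_apply, h.Le, Perm.inv_eq_iff_eq, h.Le]
    have h6 : (L (g a))⁻¹ (g b) = ((L (g a))⁻¹ * g * L a) t := by
      rw [Perm.mul_apply, Perm.mul_apply, ← hbt]
    rw [h6]
    exact h.mn_equi hab h4 h5
  rcases h.prim (fun a b => MN L ((L a)⁻¹ b)) heq hG with h1 | h1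
  · exfalso
    have h2 := h1 e s (by rw [h.Le1, inv_one, Perm.one_apply]; exact hs)
    exact hse h2.symm
  · intro x
    have h2 := h1 e x
    rwa [h.Le1, inv_one, Perm.one_apply] at h2

/-- one element `s ≠ e` in the middle nucleus -/
theorem assoc_of_mn (h : AL G L J e) {s : Q} (hs : ∀ v z, L (L v s) z = L v (L s z)) (hse : s ≠ e) :
    Assoc L := by
  have h1 : MN L s := by
    intro v
    ext z
    exact hs v z
  intro x y z
  rw [h.mn_all h1 hse y x, Perm.mul_apply]

/-- all commutators in the middle nucleus -/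
theorem assoc_or_comm (h : AL G L J e)
    (hs : ∀ u x v z, L (L v ((L x)⁻¹ ((L u)⁻¹ (L x u)))) z =
      L v (L ((L x)⁻¹ ((L u)⁻¹ (L x u))) z)) :
    Assoc L ∨ ∀ x y, L x y = L y x := by
  by_cases hc : ∀ x y, L x y = L y x
  · exact Or.inr hc
  · left
    push Not at hc
    obtain ⟨x, u, hxu⟩ := hc
    refine h.assoc_of_mn (s := (L x)⁻¹ ((L u)⁻¹ (L x u))) (hs u x) ?_
    intro h1
    rw [Perm.inv_eq_iff_eq, h.Le, Perm.inv_eq_iff_eq] at h1
    exact hxu h1

end AL

end ALoop
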